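import Mathlib

namespace Pool.Agent.Lib_helper14.RBO

/-- `F` is, on `K`, a uniform limit of functions of the ring `S`. -/
def App {X : Type*} (K : Set X) (S : Subring (X → ℂ)) (F : X → ℂ) : Prop :=
  ∀ e : ℝ, 0 < e → ∃ P ∈ S, ∀ z ∈ K, ‖F z - P z‖ ≤ e

namespace App

variable {X : Type*} {K : Set X} {S : Subring (X → ℂ)} {F G : X → ℂ}

theorem of_mem (h : F ∈ S) : App K S F := fun e he =>
  ⟨F, h, fun z _ => by simpa using he.le⟩

theorem congr (hF : App K S F) (h : ∀ z ∈ K, G z = F z) : App K S G := fun e he => by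
  obtain ⟨P, hP, h1⟩ := hF e he
  exact ⟨P, hP, fun z hz => by rw [h z hz]; exact h1 z hz⟩

theorem mono {K' : Set X} (hF : App K S F) (h : K' ⊆ K) : App K' S F := fun e he => by
  obtain ⟨P, hP, h1⟩ := hF e he
  exact ⟨P, hP, fun z hz => h1 z (h hz)⟩

theorem bdd (hS : ∀ P ∈ S, ∃ C : ℝ, ∀ z ∈ K, ‖P z‖ ≤ C) (hF : App K S F) :
    ∃ C : ℝ, ∀ z ∈ K, ‖F z‖ ≤ C := by
  obtain ⟨P, hP, h1⟩ := hF 1 one_pos
  obtain ⟨C, hC⟩ := hS P hP
  refine ⟨1 + C, fun z hz => ?_⟩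
  have h2 : F z = (F z - P z) + P z := by ring
  rw [h2]
  exact (norm_add_le _ _).trans (add_le_add (h1 z hz) (hC z hz))

theorem add (hF : App K S F) (hG : App K S G) : App K S (fun z => F z + G z) := fun e he => by
  obtain ⟨P, hP, h1⟩ := hF (e / 2) (by positivity)
  obtain ⟨Q, hQ, h2⟩ := hG (e / 2) (by positivity)
  refine ⟨P + Q, S.add_mem hP hQ, fun z hz => ?_⟩
  have h3 : F z + G z - (P + Q) z = (F z - P z) + (G z - Q z) := by
    rw [Pi.add_apply]; ring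
  rw [h3]
  refine (norm_add_le _ _).trans ?_
  have := h1 z hz
  have := h2 z hz
  linarith

theorem neg (hF : App K S F) : App K S (fun z => - F z) := fun e he => by
  obtain ⟨P, hP, h1⟩ := hF e he
  refine ⟨-P, S.neg_mem hP, fun z hz => ?_⟩
  have h3 : - F z - (-P) z = -(F z - P z) := by
    rw [Pi.neg_apply]; ring
  rw [h3, norm_neg]
  exact h1 z hz

theorem sub (hF : App K S F) (hG : App K S G) : App K S (fun z => F z - G z) := by
  have := hF.add hG.neg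
  simpa [sub_eq_add_neg] using this

theorem mul (hS : ∀ P ∈ S, ∃ C : ℝ, ∀ z ∈ K, ‖P z‖ ≤ C) (hF : App K S F) (hG : App K S G) :
    App K S (fun z => F z * G z) := fun e he => by
  obtain ⟨C, hC⟩ := hG.bdd hS
  obtain ⟨P, hP, h1⟩ := hF (e / 2 / (|C| + 1)) (by positivity)
  obtain ⟨D, hD⟩ := hS P hP
  obtain ⟨Q, hQ, h2⟩ := hG (e / 2 / (|D| + 1)) (by positivity)
  refine ⟨P * Q, S.mul_mem hP hQ, fun z hz => ?_⟩
  have h3 : F z * G z - (P * Q) z = (F z - P z) * G z + P z * (G z - Q z) := by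
    rw [Pi.mul_apply]; ring
  rw [h3]
  refine (norm_add_le _ _).trans ?_
  rw [norm_mul, norm_mul]
  have a1 : ‖F z - P z‖ * ‖G z‖ ≤ e / 2 := by
    have hc : ‖G z‖ ≤ |C| + 1 := (hC z hz).trans ((le_abs_self C).trans (by linarith))
    calc ‖F z - P z‖ * ‖G z‖ ≤ (e / 2 / (|C| + 1)) * (|C| + 1) :=
          mul_le_mul (h1 z hz) hc (norm_nonneg _) (by positivity)
      _ = e / 2 := by field_simp
  have a2 : ‖P z‖ * ‖G z - Q z‖ ≤ e / 2 := by
    have hc : ‖P z‖ ≤ |D| + 1 := (hD z hz).trans ((le_abs_self D).trans (by linarith))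
    calc ‖P z‖ * ‖G z - Q z‖ ≤ (|D| + 1) * (e / 2 / (|D| + 1)) :=
          mul_le_mul hc (h2 z hz) (norm_nonneg _) (by positivity)
      _ = e / 2 := by field_simp
  linarith

theorem pow (hS : ∀ P ∈ S, ∃ C : ℝ, ∀ z ∈ K, ‖P z‖ ≤ C) (hF : App K S F) (n : ℕ) :
    App K S (fun z => F z ^ n) := by
  induction n with
  | zero =>
    simp only [pow_zero]
    exact of_mem (F := fun _ => (1 : ℂ)) S.one_mem
  | succ n ih =>
    simp only [pow_succ]
    exact mul hS ih hF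

theorem sum (_hS : ∀ P ∈ S, ∃ C : ℝ, ∀ z ∈ K, ‖P z‖ ≤ C) {ι : Type*} (s : Finset ι)
    (f : ι → X → ℂ) (h : ∀ i ∈ s, App K S (f i)) : App K S (fun z => ∑ i ∈ s, f i z) := by
  classical
  induction s using Finset.induction_on with
  | empty =>
    simp only [Finset.sum_empty]
    exact of_mem (F := fun _ => (0 : ℂ)) S.zero_mem
  | insert a s ha ih =>
    simp only [Finset.sum_insert ha]
    exact (h a (Finset.mem_insert_self a s)).add
      (ih fun i hi => h i (Finset.mem_insert_of_mem hi))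

/-- closed under uniform limits on `K` -/
theorem lim (h : ∀ e : ℝ, 0 < e → ∃ G : X → ℂ, App K S G ∧ ∀ z ∈ K, ‖F z - G z‖ ≤ e) :
    App K S F := fun e he => by
  obtain ⟨G, hG, h1⟩ := h (e / 2) (by positivity)
  obtain ⟨P, hP, h2⟩ := hG (e / 2) (by positivity)
  refine ⟨P, hP, fun z hz => ?_⟩
  have h3 : F z - P z = (F z - G z) + (G z - P z) := by ring
  rw [h3]
  refine (norm_add_le _ _).trans ?_
  have := h1 z hz
  have := h2 z hz
  linarith

/-- sequence form -/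
theorem lim_seq (f : ℕ → X → ℂ) (hf : ∀ n, App K S (f n)) (b : ℕ → ℝ)
    (hb : Filter.Tendsto b Filter.atTop (nhds 0)) (h : ∀ n, ∀ z ∈ K, ‖F z - f n z‖ ≤ b n) :
    App K S F := lim fun e he => by
  obtain ⟨n, hn⟩ := (hb.eventually (gt_mem_nhds he)).exists
  exact ⟨f n, hf n, fun z hz => (h n z hz).trans hn.le⟩

/-- the inverse of a function near `1` -/
theorem inv (hS : ∀ P ∈ S, ∃ C : ℝ, ∀ z ∈ K, ‖P z‖ ≤ C) (hF : App K S F)
    (h : ∀ z ∈ K, ‖F z - 1‖ ≤ 1 / 2) : App K S (fun z => (F z)⁻¹) := by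
  have hone : App K S (fun _ => (1 : ℂ)) := of_mem S.one_mem
  have hD : App K S (fun z => 1 - F z) := hone.sub hF
  refine lim_seq (fun n z => ∑ k ∈ Finset.range n, (1 - F z) ^ k)
    (fun n => sum hS _ _ fun k _ => hD.pow hS k) (fun n => 2 * (1 / 2) ^ n) ?_ ?_
  · have := (tendsto_pow_atTop_nhds_zero_of_lt_one (r := (1 / 2 : ℝ)) (by norm_num)
      (by norm_num)).const_mul 2
    simpa using this
  · intro n z hz
    have h1 : ‖1 - F z‖ ≤ 1 / 2 := by rw [norm_sub_rev]; exact h z hz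
    have hne : F z ≠ 0 := by
      intro h0
      rw [h0, sub_zero, norm_one] at h1
      norm_num at h1
    have hlow : 1 / 2 ≤ ‖F z‖ := by
      have h2 : (1 : ℂ) = (1 - F z) + F z := by ring
      have h3 : ‖(1 : ℂ)‖ ≤ ‖1 - F z‖ + ‖F z‖ := by
        conv_lhs => rw [h2]
        exact norm_add_le _ _
      rw [norm_one] at h3
      linarith
    have hsum : (F z)⁻¹ - ∑ k ∈ Finset.range n, (1 - F z) ^ k = (1 - F z) ^ n * (F z)⁻¹ := by
      have hg := mul_neg_geom_sum (1 - F z) n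
      have hg' : F z * ∑ k ∈ Finset.range n, (1 - F z) ^ k = 1 - (1 - F z) ^ n := by
        rw [← hg]; ring
      field_simp
      rw [hg']
      ring
    rw [hsum, norm_mul, norm_pow, norm_inv]
    have h4 : ‖F z‖⁻¹ ≤ 2 := by
      rw [inv_le_comm₀ (by linarith) (by norm_num)]
      linarith
    calc ‖1 - F z‖ ^ n * ‖F z‖⁻¹ ≤ (1 / 2) ^ n * 2 :=
          mul_le_mul (pow_le_pow_left₀ (norm_nonneg _) h1 n) h4 (by positivity) (by positivity)
      _ = 2 * (1 / 2) ^ n := by ring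

theorem div (hS : ∀ P ∈ S, ∃ C : ℝ, ∀ z ∈ K, ‖P z‖ ≤ C) (hG : App K S G) (hF : App K S F)
    (h : ∀ z ∈ K, ‖F z - 1‖ ≤ 1 / 2) : App K S (fun z => G z / F z) := by
  simp only [div_eq_mul_inv]
  exact hG.mul hS (hF.inv hS h)

end App

/-- the ring of the functions on `σ → ℂ` given by polynomials with coefficients in a
subring `R` of `ℂ` -/
def polyFun (σ : Type*) (R : Subring ℂ) : Subring ((σ → ℂ) → ℂ) where
  carrier := {F | ∃ P : MvPolynomial σ R, ∀ z, F z = MvPolynomial.eval₂ R.subtype z P}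
  zero_mem' := ⟨0, fun z => by simp⟩
  one_mem' := ⟨1, fun z => by simp⟩
  add_mem' := by
    rintro F G ⟨P, hP⟩ ⟨Q, hQ⟩
    exact ⟨P + Q, fun z => by rw [Pi.add_apply, hP, hQ, MvPolynomial.eval₂_add]⟩
  neg_mem' := by
    rintro F ⟨P, hP⟩
    refine ⟨-P, fun z => ?_⟩
    rw [Pi.neg_apply, hP]
    exact (map_neg (MvPolynomial.eval₂Hom R.subtype z) P).symm
  mul_mem' := by
    rintro F G ⟨P, hP⟩ ⟨Q, hQ⟩
    exact ⟨P * Q, fun z => by rw [Pi.mul_apply, hP, hQ, MvPolynomial.eval₂_mul]⟩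

theorem mem_polyFun {σ : Type*} {R : Subring ℂ} {F : (σ → ℂ) → ℂ} :
    F ∈ polyFun σ R ↔ ∃ P : MvPolynomial σ R, ∀ z, F z = MvPolynomial.eval₂ R.subtype z P :=
  Iff.rfl

theorem coord_mem {σ : Type*} (R : Subring ℂ) (i : σ) : (fun z : σ → ℂ => z i) ∈ polyFun σ R :=
  ⟨MvPolynomial.X i, fun z => by simp⟩

theorem const_mem {σ : Type*} (R : Subring ℂ) {c : ℂ} (hc : c ∈ R) :
    (fun _ : σ → ℂ => c) ∈ polyFun σ R :=
  ⟨MvPolynomial.C ⟨c, hc⟩, fun z => by simp⟩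

/-- polynomials are bounded on a polydisc -/
theorem poly_bdd {σ : Type*} (R : Subring ℂ) (r : ℝ) (P : (σ → ℂ) → ℂ)
    (hP : P ∈ polyFun σ R) : ∃ C : ℝ, ∀ z ∈ {z : σ → ℂ | ∀ i, ‖z i‖ ≤ r}, ‖P z‖ ≤ C := by
  obtain ⟨Q, hQ⟩ := hP
  induction Q using MvPolynomial.induction_on generalizing P with
  | C c => exact ⟨‖(c : ℂ)‖, fun z _ => by rw [hQ]; simp⟩
  | add p q hp hq =>
    obtain ⟨C, hC⟩ := hp (fun z => MvPolynomial.eval₂ R.subtype z p) (fun z => rfl)
    obtain ⟨D, hD⟩ := hq (fun z => MvPolynomial.eval₂ R.subtype z q) (fun z => rfl)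
    refine ⟨C + D, fun z hz => ?_⟩
    rw [hQ, MvPolynomial.eval₂_add]
    exact (norm_add_le _ _).trans (add_le_add (hC z hz) (hD z hz))
  | mul_X p i hp =>
    obtain ⟨C, hC⟩ := hp (fun z => MvPolynomial.eval₂ R.subtype z p) (fun z => rfl)
    refine ⟨|C| * |r|, fun z hz => ?_⟩
    rw [hQ, MvPolynomial.eval₂_mul, MvPolynomial.eval₂_X, norm_mul]
    exact mul_le_mul ((hC z hz).trans (le_abs_self C)) ((hz i).trans (le_abs_self r))
      (norm_nonneg _) (abs_nonneg _)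

end Pool.Agent.Lib_helper14.RBO
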