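import Pool.Agent.Lib_helper65.RB.LL

/-!
# Concavity of the limit functional and the three-slope inequality (block CC)
-/

namespace Pool.Agent.Lib_helper65.RBO

open Filter Topology
open Pool.Agent.Lib_helper65.RB

/-- The means are superadditive. -/
theorem mean_superadd (j : ℕ) {x y x' y' : ℝ} (hx : 0 < x) (hy : 0 < y) (hx' : 0 < x')
    (hy' : 0 < y') : mean j x y + mean j x' y' ≤ mean j (x + x') (y + y') := by
  unfold mean
  split_ifs
  · linarith
  · have h1 : 0 < x + y := by positivity
    have h2 : 0 < x' + y' := by positivity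
    have h3 : 0 < x + x' + (y + y') := by positivity
    have key : 2 * (x + x') * (y + y') / (x + x' + (y + y')) -
        (2 * x * y / (x + y) + 2 * x' * y' / (x' + y')) =
        2 * (x * y' - x' * y) ^ 2 / ((x + x' + (y + y')) * (x + y) * (x' + y')) := by
      field_simp
      ring
    have : 0 ≤ 2 * (x * y' - x' * y) ^ 2 / ((x + x' + (y + y')) * (x + y) * (x' + y')) := by
      positivity
    linarith

/-- Superadditivity along solutions. -/
theorem IsW_superadd {a b : ℕ} (ha : 0 < a) (hab : a ≤ b) {w w' w'' : ℕ → ℝ} (h : IsW a b w)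
    (h' : IsW a b w') (h'' : IsW a b w'') (hp : ∀ n < b, 0 < w n) (hp' : ∀ n < b, 0 < w' n)
    (h0 : ∀ n < b, w n + w' n ≤ w'' n) : ∀ n, w n + w' n ≤ w'' n := by
  have hb : 0 < b := by omega
  have hw := h.pos hb ha hab hp
  have hw' := h'.pos hb ha hab hp'
  intro n
  induction n using Nat.strong_induction_on with
  | _ n ih =>
    by_cases hn : n < b
    · exact h0 n hn
    · obtain ⟨j, rfl⟩ : ∃ j, n = j + b := ⟨n - b, by omega⟩
      rw [h j, h' j, h'' j]
      exact (mean_superadd _ (hw _) (hw _) (hw' _) (hw' _)).trans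
        (mean_mono _ (add_pos (hw _) (hw' _)) (add_pos (hw _) (hw' _)) (ih _ (by omega))
          (ih _ (by omega)))

/-- The limit functional is superadditive. -/
theorem LL_superadd {a b : ℕ} (ha : 0 < a) (hab : a ≤ b) (hc : Nat.Coprime a b)
    {v v' v'' : ℕ → ℝ} (hv : ∀ n < b, 0 < v n) (hv' : ∀ n < b, 0 < v' n)
    (h0 : ∀ n < b, v n + v' n ≤ v'' n) : LL a b v + LL a b v' ≤ LL a b v'' := by
  have hv'' : ∀ n < b, 0 < v'' n := fun n hn =>
    lt_of_lt_of_le (add_pos (hv n hn) (hv' n hn)) (h0 n hn)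
  refine le_of_tendsto_of_tendsto'
    ((LL_tendsto ha hab hc hv).add (LL_tendsto ha hab hc hv')) (LL_tendsto ha hab hc hv'') ?_
  apply IsW_superadd ha hab (wsol_isW ha hab v) (wsol_isW ha hab v') (wsol_isW ha hab v'')
  · intro n hn; rw [wsol_init hn]; exact hv n hn
  · intro n hn; rw [wsol_init hn]; exact hv' n hn
  · intro n hn; rw [wsol_init hn, wsol_init hn, wsol_init hn]; exact h0 n hn

/-- BLOCK CC (concavity): with `Y θ n = θ * v n` for `n ∈ P` and `v n` otherwise,
`(LL (Y 1) - LL (Y (1-ω))) (Θ-1) ≥ ω (LL (Y Θ) - LL (Y 1))`. -/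
theorem slope {a b : ℕ} (ha : 0 < a) (hab : a ≤ b) (hc : Nat.Coprime a b) (P : ℕ → Prop)
    [DecidablePred P] (v : ℕ → ℝ) (hv : ∀ n < b, 0 < v n) {ω Θ : ℝ} (hω : 0 < ω) (hω1 : ω < 1)
    (hΘ : 1 < Θ) :
    ω * (LL a b (fun n => if P n then Θ * v n else v n) - LL a b v) ≤
      (Θ - 1) * (LL a b v - LL a b (fun n => if P n then (1 - ω) * v n else v n)) := by
  have hT : 0 < Θ - 1 := by linarith
  have h1 : ∀ n < b, 0 < (fun n => if P n then Θ * v n else v n) n := by
    intro n hn
    simp only
    split_ifs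
    · exact mul_pos (by linarith) (hv n hn)
    · exact hv n hn
  have h2 : ∀ n < b, 0 < (fun n => if P n then (1 - ω) * v n else v n) n := by
    intro n hn
    simp only
    split_ifs
    · exact mul_pos (by linarith) (hv n hn)
    · exact hv n hn
  have e1 := LL_smul ha hab hc h1 hω
  have e2 := LL_smul ha hab hc h2 hT
  have e3 := LL_smul ha hab hc hv (show 0 < Θ - 1 + ω by linarith)
  have key := LL_superadd ha hab hc (v := fun n => ω * (if P n then Θ * v n else v n))
    (v' := fun n => (Θ - 1) * (if P n then (1 - ω) * v n else v n))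
    (v'' := fun n => (Θ - 1 + ω) * v n)
    (fun n hn => mul_pos hω (h1 n hn)) (fun n hn => mul_pos hT (h2 n hn)) (by
      intro n hn
      by_cases hP : P n
      · simp only [if_pos hP]; apply le_of_eq; ring
      · simp only [if_neg hP]; apply le_of_eq; ring)
  rw [e1, e2, e3] at key
  linarith

end Pool.Agent.Lib_helper65.RBO
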