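import Pool.Agent.Lib_helper65.RBO.Defs6

/-!
# Block G3: uniform convergence of the complex mean recursion near `1`
-/

namespace Pool.Agent.Lib_helper14.RBO

open Filter Topology
open Pool.Agent.Lib_helper65.RB
open Pool.Agent.Lib_helper65.RBO

/-- the statement of block G3a -/
def LinContract (a b : ℕ) : Prop :=
  ∃ (K : ℕ) (η : ℝ), 0 < η ∧ η < 1 ∧ ∀ (u : ℕ → ℂ), (∀ n, u (n + b) = (u (n + b - a) + u n) / 2) →
      ∀ D : ℝ, (∀ i < b, ∀ j < b, ‖u i - u j‖ ≤ D) →
        ∀ i j, K ≤ i → K ≤ j → ‖u i - u j‖ ≤ (1 - η) * D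

/-- the statement of block G3 -/
def CwgConv (a b : ℕ) : Prop :=
  ∃ R C ρ : ℝ, 0 < R ∧ R ≤ 1 / 2 ∧ 0 < C ∧ 0 < ρ ∧ ρ < 1 ∧
    ∀ z : Fin b → ℂ, (∀ i, ‖z i‖ ≤ R) → ∀ n : ℕ,
      ‖cwg a b z n - 1‖ ≤ 1 / 4 ∧ ‖cwg a b z (n + 1) - cwg a b z n‖ ≤ C * ρ ^ n

theorem sum_low {x y : ℂ} {δ : ℝ} (hx : ‖x - 1‖ ≤ δ) (hy : ‖y - 1‖ ≤ δ) :
    2 - 2 * δ ≤ ‖x + y‖ := by
  have h1 : (2 : ℂ) = (x + y) - ((x - 1) + (y - 1)) := by ring
  have h2 : ‖(2 : ℂ)‖ ≤ ‖x + y‖ + ‖(x - 1) + (y - 1)‖ := by
    conv_lhs => rw [h1]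
    exact norm_sub_le _ _
  have h3 : ‖(x - 1) + (y - 1)‖ ≤ δ + δ := (norm_add_le _ _).trans (add_le_add hx hy)
  have h4 : ‖(2 : ℂ)‖ = 2 := by simp
  rw [h4] at h2
  linarith

theorem cmean_near (j : ℕ) {x y : ℂ} {δ : ℝ} (hδ : δ ≤ 1 / 4) (hx : ‖x - 1‖ ≤ δ)
    (hy : ‖y - 1‖ ≤ δ) : ‖cmean j x y - 1‖ ≤ 2 * δ := by
  have hδ0 : 0 ≤ δ := (norm_nonneg _).trans hx
  unfold cmean
  split_ifs
  · have h1 : (x + y) / 2 - 1 = ((x - 1) + (y - 1)) / 2 := by ring
    rw [h1, norm_div]
    have h2 : ‖(2 : ℂ)‖ = 2 := by simp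
    rw [h2]
    have h3 : ‖(x - 1) + (y - 1)‖ ≤ δ + δ := (norm_add_le _ _).trans (add_le_add hx hy)
    linarith
  · have hlow := sum_low hx hy
    have hpos : 0 < ‖x + y‖ := by linarith
    have hne : x + y ≠ 0 := norm_pos_iff.1 hpos
    have h1 : 2 * x * y / (x + y) - 1 =
        ((x - 1) + (y - 1) + 2 * ((x - 1) * (y - 1))) / (x + y) := by
      field_simp
      ring
    rw [h1, norm_div, div_le_iff₀ hpos]
    have h2 : ‖(x - 1) + (y - 1) + 2 * ((x - 1) * (y - 1))‖ ≤ δ + δ + 2 * (δ * δ) := by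
      refine (norm_add_le _ _).trans (add_le_add ((norm_add_le _ _).trans (add_le_add hx hy)) ?_)
      rw [norm_mul, norm_mul]
      have h3 : ‖(2 : ℂ)‖ = 2 := by simp
      rw [h3]
      have := mul_le_mul hx hy (norm_nonneg _) hδ0
      linarith
    nlinarith

theorem cmean_am (j : ℕ) {x y : ℂ} (hx : ‖x - 1‖ ≤ 1 / 4) (hy : ‖y - 1‖ ≤ 1 / 4) :
    ‖cmean j x y - (x + y) / 2‖ ≤ ‖x - y‖ ^ 2 := by
  unfold cmean
  split_ifs
  · rw [sub_self, norm_zero]
    positivity
  · have hlow := sum_low hx hy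
    have hpos : 0 < ‖x + y‖ := by linarith
    have hne : x + y ≠ 0 := norm_pos_iff.1 hpos
    have h1 : 2 * x * y / (x + y) - (x + y) / 2 = -((x - y) ^ 2 / (2 * (x + y))) := by
      field_simp
      ring
    rw [h1, norm_neg, norm_div, norm_mul, norm_pow]
    have h3 : ‖(2 : ℂ)‖ = 2 := by simp
    rw [h3, div_le_iff₀ (by positivity)]
    nlinarith [sq_nonneg ‖x - y‖, norm_nonneg (x - y)]

theorem cwg_lt {a b : ℕ} (z : Fin b → ℂ) {n : ℕ} (h : n < b) : cwg a b z n = 1 + z ⟨n, h⟩ := by
  rw [cwg, dif_pos h]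

theorem cwg_ge {a b : ℕ} (ha : 0 < a) (hb : 0 < b) (z : Fin b → ℂ) {n : ℕ} (h : b ≤ n) :
    cwg a b z n = cmean n (cwg a b z (n - a)) (cwg a b z (n - b)) := by
  rw [cwg, dif_neg (by omega), if_neg (by omega)]

/-- the solution of the linear recursion with the given window -/
noncomputable def lin (a b : ℕ) (x : ℕ → ℂ) (n : ℕ) : ℂ :=
  if n < b then x n
  else if a = 0 ∨ b = 0 then 0
  else (lin a b x (n - a) + lin a b x (n - b)) / 2
termination_by n
decreasing_by all_goals omega

theorem lin_lt {a b : ℕ} (x : ℕ → ℂ) {n : ℕ} (h : n < b) : lin a b x n = x n := by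
  rw [lin, if_pos h]

theorem lin_ge {a b : ℕ} (ha : 0 < a) (hb : 0 < b) (x : ℕ → ℂ) (n : ℕ) :
    lin a b x (n + b) = (lin a b x (n + b - a) + lin a b x n) / 2 := by
  rw [lin, if_neg (by omega), if_neg (by omega), Nat.add_sub_cancel]

theorem start_near {a b : ℕ} (ha : 0 < a) (hb : 0 < b) {R : ℝ} {L : ℕ} (hR : 0 < R)
    (hL : 2 ^ L * R ≤ 1 / 4) (z : Fin b → ℂ) (hz : ∀ i, ‖z i‖ ≤ R) :
    ∀ n, n ≤ L → ‖cwg a b z n - 1‖ ≤ 2 ^ n * R := by
  intro n
  induction n using Nat.strong_induction_on with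
  | _ n ih =>
    intro hn
    rcases lt_or_ge n b with h | h
    · rw [cwg_lt z h, add_sub_cancel_left]
      have : (1 : ℝ) ≤ 2 ^ n := one_le_pow₀ (by norm_num)
      have := hz ⟨n, h⟩
      nlinarith
    · rw [cwg_ge ha hb z h]
      have hn1 : n = (n - 1) + 1 := by omega
      have hstep : (2 : ℝ) ^ n * R = 2 * (2 ^ (n - 1) * R) := by
        conv_lhs => rw [hn1]
        rw [pow_succ]; ring
      rw [hstep]
      have hmono : ∀ m, m ≤ n - 1 → (2 : ℝ) ^ m * R ≤ 2 ^ (n - 1) * R := fun m hm =>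
        mul_le_mul_of_nonneg_right (pow_le_pow_right₀ (by norm_num) hm) hR.le
      refine cmean_near n ?_ ((ih (n - a) (by omega) (by omega)).trans (hmono _ (by omega)))
        ((ih (n - b) (by omega) (by omega)).trans (hmono _ (by omega)))
      refine le_trans ?_ hL
      exact mul_le_mul_of_nonneg_right (pow_le_pow_right₀ (by norm_num) (by omega)) hR.le

/-- comparison with the linear recursion -/
theorem compare {a b : ℕ} (ha : 0 < a) (hab : a ≤ b) (z : Fin b → ℂ) (n0 K : ℕ) {D : ℝ}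
    (hnear : ∀ m, m < K + b → ‖cwg a b z (n0 + m) - 1‖ ≤ 1 / 4)
    (hdiff : ∀ m, m ≤ K → ‖cwg a b z (n0 + m + b - a) - cwg a b z (n0 + m)‖ ≤ D) :
    ∀ m, m ≤ K + b → ‖cwg a b z (n0 + m) - lin a b (fun i => cwg a b z (n0 + i)) m‖ ≤
      m * D ^ 2 := by
  have hb : 0 < b := lt_of_lt_of_le ha hab
  intro m
  induction m using Nat.strong_induction_on with
  | _ m ih =>
    intro hm
    rcases lt_or_ge m b with h | h
    · rw [lin_lt _ h, sub_self, norm_zero]
      positivity
    · obtain ⟨t, rfl⟩ : ∃ t, m = t + b := ⟨m - b, by omega⟩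
      rw [lin_ge ha hb, cwg_ge ha hb z (by omega : b ≤ n0 + (t + b))]
      have e1 : n0 + (t + b) - a = n0 + (t + b - a) := by omega
      have e2 : n0 + (t + b) - b = n0 + t := by omega
      rw [e1, e2]
      set x := cwg a b z (n0 + (t + b - a)) with hx
      set y := cwg a b z (n0 + t) with hy
      have i1 := ih (t + b - a) (by omega) (by omega)
      have i2 := ih t (by omega) (by omega)
      rw [← hx] at i1
      rw [← hy] at i2
      have hxn : ‖x - 1‖ ≤ 1 / 4 := hnear (t + b - a) (by omega)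
      have hyn : ‖y - 1‖ ≤ 1 / 4 := hnear t (by omega)
      have hd : ‖x - y‖ ≤ D := by
        have := hdiff t (by omega)
        have e3 : n0 + t + b - a = n0 + (t + b - a) := by omega
        rwa [e3] at this
      have hE := cmean_am (n0 + (t + b)) hxn hyn
      have hsq : ‖x - y‖ ^ 2 ≤ D ^ 2 := pow_le_pow_left₀ (norm_nonneg _) hd 2
      set u1 := lin a b (fun i => cwg a b z (n0 + i)) (t + b - a) with hu1
      set u2 := lin a b (fun i => cwg a b z (n0 + i)) t with hu2
      have hsplit : cmean (n0 + (t + b)) x y - (u1 + u2) / 2 =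
          (cmean (n0 + (t + b)) x y - (x + y) / 2) + ((x - u1) + (y - u2)) / 2 := by ring
      rw [hsplit]
      refine (norm_add_le _ _).trans ?_
      have h2 : ‖(2 : ℂ)‖ = 2 := by simp
      have h3 : ‖((x - u1) + (y - u2)) / 2‖ ≤
          (((t + b - a : ℕ) : ℝ) * D ^ 2 + (t : ℝ) * D ^ 2) / 2 := by
        rw [norm_div, h2]
        have := (norm_add_le (x - u1) (y - u2)).trans (add_le_add i1 i2)
        linarith
      have h4 : ((t + b - a : ℕ) : ℝ) ≤ ((t + b : ℕ) : ℝ) - 1 := by
        have : t + b - a + 1 ≤ t + b := by omega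
        have h5 : ((t + b - a + 1 : ℕ) : ℝ) ≤ ((t + b : ℕ) : ℝ) := by exact_mod_cast this
        push_cast at h5 ⊢
        linarith
      have h6 : (t : ℝ) ≤ ((t + b : ℕ) : ℝ) - 1 := by
        have : t + 1 ≤ t + b := by omega
        have h5 : ((t + 1 : ℕ) : ℝ) ≤ ((t + b : ℕ) : ℝ) := by exact_mod_cast this
        push_cast at h5 ⊢
        linarith
      have hD2 : 0 ≤ D ^ 2 := sq_nonneg D
      have h7 := mul_le_mul_of_nonneg_right h4 hD2
      have h8 := mul_le_mul_of_nonneg_right h6 hD2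
      nlinarith

theorem cwg_conv_of {a b : ℕ} (ha : 0 < a) (hab : a ≤ b) (h : LinContract a b) :
    CwgConv a b := by
  have hb : 0 < b := lt_of_lt_of_le ha hab
  obtain ⟨K0, η, hη0, hη1, hlin0⟩ := h
  -- make K positive
  set K := K0 + 1 with hK
  have hlin : ∀ (u : ℕ → ℂ), (∀ n, u (n + b) = (u (n + b - a) + u n) / 2) →
      ∀ D : ℝ, (∀ i < b, ∀ j < b, ‖u i - u j‖ ≤ D) →
        ∀ i j, K ≤ i → K ≤ j → ‖u i - u j‖ ≤ (1 - η) * D :=
    fun u hu D hD i j hi hj => hlin0 u hu D hD i j (by omega) (by omega)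
  have hKpos : (0 : ℝ) < (K : ℝ) := by rw [hK]; positivity
  have hK1 : (1 : ℝ) ≤ (K : ℝ) := by rw [hK]; push_cast; linarith [Nat.cast_nonneg (α := ℝ) K0]
  set ρ : ℝ := 1 + -(η / (2 * K)) with hρ
  have hfrac0 : 0 < η / (2 * K) := by positivity
  have hfrac1 : η / (2 * K) ≤ 1 / 2 := by
    rw [div_le_iff₀ (by positivity)]
    nlinarith
  have hρ0 : 0 < ρ := by rw [hρ]; linarith
  have hρ1 : ρ < 1 := by rw [hρ]; linarith
  have hρK : 1 - η / 2 ≤ ρ ^ K := by
    have h1 := one_add_mul_le_pow (a := -(η / (2 * K))) (by linarith) K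
    have h2 : 1 + (K : ℝ) * -(η / (2 * K)) = 1 - η / 2 := by
      field_simp
      ring
    rw [h2] at h1
    exact h1
  have hN : (0 : ℝ) < ((K + b : ℕ) : ℝ) := by positivity
  set C : ℝ := min (η / (4 * ((K + b : ℕ) : ℝ))) ((1 - ρ) / 16) with hC
  have hC0 : 0 < C := by
    rw [hC]
    refine lt_min (by positivity) ?_
    have : 0 < 1 - ρ := by linarith
    positivity
  have hC1 : C ≤ η / (4 * ((K + b : ℕ) : ℝ)) := min_le_left _ _
  have hC2 : C ≤ (1 - ρ) / 16 := min_le_right _ _
  have hC3 : 4 * ((K + b : ℕ) : ℝ) * C ≤ η := by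
    have := (le_div_iff₀ (by positivity)).1 hC1
    linarith
  have hC4 : C ≤ 1 / 16 := by linarith
  set R : ℝ := C / (8 * 2 ^ (K + b)) with hR
  have hR0 : 0 < R := by positivity
  have hRC : 2 ^ (K + b) * R = C / 8 := by
    rw [hR]
    field_simp
  have hpow1 : (1 : ℝ) ≤ 2 ^ (K + b) := one_le_pow₀ (by norm_num)
  have hRle : R ≤ C / 8 := by
    rw [← hRC]
    nlinarith
  refine ⟨R, C, ρ, hR0, by linarith, hC0, hρ0, hρ1, fun z hz => ?_⟩
  set w := cwg a b z with hw
  have hstart : ∀ n, n ≤ K + b → ‖w n - 1‖ ≤ C / 8 := by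
    intro n hn
    have h1 := start_near ha hb hR0 (L := K + b) (by rw [hRC]; linarith) z hz n hn
    refine h1.trans ?_
    rw [← hRC]
    exact mul_le_mul_of_nonneg_right (pow_le_pow_right₀ (by norm_num) hn) hR0.le
  have hρn : ∀ n, n ≤ K → 1 / 2 ≤ ρ ^ n := by
    intro n hn
    have h1 : ρ ^ K ≤ ρ ^ n := pow_le_pow_of_le_one hρ0.le hρ1.le hn
    linarith
  have hmain : ∀ n, (∀ i ≤ b, ∀ j ≤ b, ‖w (n + i) - w (n + j)‖ ≤ C * ρ ^ n) ∧
      ‖w (n + b) - 1‖ ≤ 1 / 8 + 1 / 16 * (1 - ρ ^ (n + 1)) := by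
    intro n
    induction n using Nat.strong_induction_on with
    | _ n ih =>
      -- closeness to one of everything known
      have hclose : ∀ i, i < n + b → ‖w i - 1‖ ≤ 1 / 4 := by
        intro i hi
        rcases lt_or_ge i b with h | h
        · exact (hstart i (by omega)).trans (by linarith)
        · have h1 := (ih (i - b) (by omega)).2
          rw [Nat.sub_add_cancel h] at h1
          have h2 : 0 < ρ ^ (i - b + 1) := by positivity
          linarith
      have hA : ∀ i ≤ b, ∀ j ≤ b, ‖w (n + i) - w (n + j)‖ ≤ C * ρ ^ n := by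
        rcases lt_or_ge n K with hnK | hnK
        · intro i hi j hj
          have h1 := hstart (n + i) (by omega)
          have h2 := hstart (n + j) (by omega)
          have h3 : w (n + i) - w (n + j) = (w (n + i) - 1) - (w (n + j) - 1) := by ring
          rw [h3]
          refine (norm_sub_le _ _).trans ?_
          have h4 := hρn n hnK.le
          nlinarith
        · obtain ⟨n0, rfl⟩ : ∃ n0, n = n0 + K := ⟨n - K, by omega⟩
          have hA0 := (ih n0 (by omega)).1
          set D := C * ρ ^ n0 with hD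
          have hρn0 : ρ ^ n0 ≤ 1 := pow_le_one₀ hρ0.le hρ1.le
          have hD0 : 0 < D := by positivity
          have hDC : D ≤ C := by rw [hD]; nlinarith
          have hdiff : ∀ m, m ≤ K → ‖w (n0 + m + b - a) - w (n0 + m)‖ ≤ D := by
            intro m hm
            rcases lt_or_ge m K with h | h
            · have h1 := (ih (n0 + m) (by omega)).1 (b - a) (by omega) 0 (by omega)
              have e1 : n0 + m + (b - a) = n0 + m + b - a := by omega
              rw [e1, Nat.add_zero] at h1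
              refine h1.trans ?_
              rw [hD]
              exact mul_le_mul_of_nonneg_left
                (pow_le_pow_of_le_one hρ0.le hρ1.le (by omega)) hC0.le
            · have hmK : m = K := le_antisymm hm h
              rw [hmK]
              have h1 := (ih (n0 + K - 1) (by omega)).1 (b - a + 1) (by omega) 1 (by omega)
              have e1 : n0 + K - 1 + (b - a + 1) = n0 + K + b - a := by omega
              have e2 : n0 + K - 1 + 1 = n0 + K := by omega
              rw [e1, e2] at h1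
              refine h1.trans ?_
              rw [hD]
              exact mul_le_mul_of_nonneg_left
                (pow_le_pow_of_le_one hρ0.le hρ1.le (by omega)) hC0.le
          have hcmp := compare ha hab z n0 K (D := D)
            (fun m hm => hclose (n0 + m) (by omega)) hdiff
          have hl := hlin (lin a b fun i => cwg a b z (n0 + i)) (lin_ge ha hb _) D
            (fun i hi j hj => by
              rw [lin_lt _ hi, lin_lt _ hj]
              exact hA0 i hi.le j hj.le)
          intro i hi j hj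
          have c1 := hcmp (K + i) (by omega)
          have c2 := hcmp (K + j) (by omega)
          have c3 := hl (K + i) (K + j) (by omega) (by omega)
          have e1 : n0 + (K + i) = n0 + K + i := by omega
          have e2 : n0 + (K + j) = n0 + K + j := by omega
          rw [e1] at c1
          rw [e2] at c2
          set U1 := lin a b (fun i => cwg a b z (n0 + i)) (K + i)
          set U2 := lin a b (fun i => cwg a b z (n0 + i)) (K + j)
          have hsplit : w (n0 + K + i) - w (n0 + K + j) =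
              (w (n0 + K + i) - U1) + (U1 - U2) - (w (n0 + K + j) - U2) := by ring
          rw [hsplit]
          have hD2 : 0 ≤ D ^ 2 := sq_nonneg D
          have k1 : (((K + i : ℕ) : ℝ)) * D ^ 2 ≤ ((K + b : ℕ) : ℝ) * D ^ 2 :=
            mul_le_mul_of_nonneg_right (by exact_mod_cast (by omega : K + i ≤ K + b)) hD2
          have k2 : (((K + j : ℕ) : ℝ)) * D ^ 2 ≤ ((K + b : ℕ) : ℝ) * D ^ 2 :=
            mul_le_mul_of_nonneg_right (by exact_mod_cast (by omega : K + j ≤ K + b)) hD2
          have n1 := norm_sub_le ((w (n0 + K + i) - U1) + (U1 - U2)) (w (n0 + K + j) - U2)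
          have n2 := norm_add_le (w (n0 + K + i) - U1) (U1 - U2)
          have k3 : 2 * (((K + b : ℕ) : ℝ) * D ^ 2) ≤ η / 2 * D := by
            have : 4 * ((K + b : ℕ) : ℝ) * D ≤ η := by
              refine le_trans ?_ hC3
              exact mul_le_mul_of_nonneg_left hDC (by positivity)
            nlinarith
          have k4 : (1 - η / 2) * D ≤ C * ρ ^ (n0 + K) := by
            have : C * ρ ^ (n0 + K) = ρ ^ K * D := by rw [hD, pow_add]; ring
            rw [this]
            exact mul_le_mul_of_nonneg_right hρK hD0.le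
          have c1' := c1.trans k1
          have c2' := c2.trans k2
          linarith
      refine ⟨hA, ?_⟩
      rcases Nat.eq_zero_or_pos n with h0 | h0
      · subst h0
        have h1 := hstart (0 + b) (by omega)
        have h2 : ρ ^ (0 + 1) ≤ 1 := pow_le_one₀ hρ0.le hρ1.le
        linarith
      · obtain ⟨n', rfl⟩ : ∃ n', n = n' + 1 := ⟨n - 1, by omega⟩
        have h1 := (ih n' (by omega)).2
        have h2 := hA b le_rfl (b - 1) (by omega)
        have e1 : n' + 1 + (b - 1) = n' + b := by omega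
        rw [e1] at h2
        have h3 : w (n' + 1 + b) - 1 = (w (n' + 1 + b) - w (n' + b)) + (w (n' + b) - 1) := by ring
        rw [h3]
        refine (norm_add_le _ _).trans ?_
        have h4 : C * ρ ^ (n' + 1) ≤ 1 / 16 * (ρ ^ (n' + 1) - ρ ^ (n' + 1 + 1)) := by
          have h5 : ρ ^ (n' + 1 + 1) = ρ * ρ ^ (n' + 1) := by rw [pow_succ]; ring
          rw [h5]
          have h6 : 0 < ρ ^ (n' + 1) := by positivity
          nlinarith
        linarith
  intro n
  refine ⟨?_, ?_⟩
  · rcases lt_or_ge n b with h | h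
    · exact (hstart n (by omega)).trans (by linarith)
    · have h1 := (hmain (n - b)).2
      rw [Nat.sub_add_cancel h] at h1
      have h2 : 0 < ρ ^ (n - b + 1) := by positivity
      linarith
  · have := (hmain n).1 1 (by omega) 0 (by omega)
    simpa using this

end Pool.Agent.Lib_helper14.RBO
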